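import Pool.Agent.Y7.AN.Stm
import Pool.Agent.Y7.WInt2

/-!
Continuity in time of the weighted nonlinear term (helper455).
-/

set_option autoImplicit false
set_option linter.unusedVariables false

open MeasureTheory Set Metric Filter Topology
open scoped ContDiff

namespace Pool.Agent.Y455.AN

open H459R3.NS W221.NS Pool.Agent.TH305.DR Pool.Agent.Y7.WD Pool.Agent.Y7.AN
open Pool.Agent.W583.MD (sm_pd cs_pd pd_mul' Z Z.add Z.sub Z.smul Z.sum int_cs Z_pd hcs)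

lemma bb_joint {H : Set ℝ} (hH : IsOpen H) {v : ℝ → V → V}
    (hv : ∀ i, ContDiffOn ℝ ∞ (fun z : ℝ × V => v z.1 z.2 i) (H ×ˢ univ)) (j : Fin 3) :
    ContDiffOn ℝ ∞ (fun z : ℝ × V => bb (v z.1) j z.2) (H ×ˢ univ) := by
  unfold bb
  exact ContDiffOn.sum fun m _ => (hv m).mul (om_joint hH hv m j)

lemma gg_joint {H : Set ℝ} (hH : IsOpen H) {v : ℝ → V → V}
    (hv : ∀ i, ContDiffOn ℝ ∞ (fun z : ℝ × V => v z.1 z.2 i) (H ×ˢ univ)) (i j m : Fin 3) :
    ContDiffOn ℝ ∞ (fun z : ℝ × V => gg (v z.1) i j m z.2) (H ×ˢ univ) := by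
  unfold gg
  apply ContDiffOn.sub
  · by_cases h : m = j
    · simp only [h, if_true]
      exact bb_joint hH hv i
    · simp only [h, if_false]
      exact contDiffOn_const
  · by_cases h : m = i
    · simp only [h, if_true]
      exact bb_joint hH hv j
    · simp only [h, if_false]
      exact contDiffOn_const

lemma ct_QQ {H : Set ℝ} (hH : IsOpen H) {v : ℝ → V → V}
    (hv : ∀ i, ContDiffOn ℝ ∞ (fun z : ℝ × V => v z.1 z.2 i) (H ×ˢ univ)) (n : ℕ)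
    {ρ' ρ M : ℝ} {φ : V → ℝ} (hφ : Cut ρ' ρ M φ) :
    ContinuousOn (fun t => QQ n φ (v t)) H :=
  continuousOn_finsetSum _ fun p _ => continuousOn_finsetSum _ fun m _ =>
    ct_w (w := fun t => gg (v t) p.1 p.2 m) hH n (gg_joint hH hv p.1 p.2 m) hφ

lemma ct_YY0 {H : Set ℝ} (hH : IsOpen H) {v : ℝ → V → V}
    (hv : ∀ i, ContDiffOn ℝ ∞ (fun z : ℝ × V => v z.1 z.2 i) (H ×ˢ univ)) (n : ℕ)
    {ρ' ρ M : ℝ} {φ : V → ℝ} (hφ : Cut ρ' ρ M φ) :
    ContinuousOn (fun t => YY n φ (v t)) H :=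
  continuousOn_finsetSum _ fun p _ =>
    ct_w (w := fun t => Om p.1 p.2 (v t)) hH n (om_joint hH hv p.1 p.2) hφ

lemma QQ_nonneg (n : ℕ) (φ : V → ℝ) (v : V → V) : 0 ≤ QQ n φ v :=
  Finset.sum_nonneg fun p _ => Finset.sum_nonneg fun m _ =>
    integral_nonneg fun x => mul_nonneg (SS_nonneg _ _ _) (sq_nonneg _)

end Pool.Agent.Y455.AN
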