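import Pool.Agent.Y455.AN.Ct

/-!
Smooth local data are energy data (helper455; after `TH305.DR.Nl` and `TH305.DR.Lev`).
-/

set_option autoImplicit false
set_option linter.unusedVariables false

open MeasureTheory Set Metric Filter Topology
open scoped ContDiff

namespace Pool.Agent.Y455.AN

open H459R3.NS W221.NS Pool.Agent.TH305.DR Pool.Agent.Y7.WD Pool.Agent.Y7.AN
open Pool.Agent.W583.MD (sm_pd cs_pd pd_mul' Z Z.add Z.sub Z.smul Z.sum int_cs Z_pd hcs)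
open Pool.Agent.W505.ME.TSM (JS JS.slice JS.pd JS.dt JS.comm JS.sub JS.sum)

section
variable {K : ℝ} {v W : ℝ → V → V} {G : ℝ → ℝ}

/-- The energy inequality for the vorticity with the exact nonlinear term. -/
lemma en_X (n : ℕ) {ρ' ρ M : ℝ} {φ : V → ℝ} (hφ : Cut ρ' ρ M φ) (hρ : ρ ≤ 1 / 4)
    (hD : Dat K v W G) {t : ℝ} (ht : t ∈ Ioo (-1 / 16 : ℝ) 0) :
    ∃ E' : ℝ, HasDerivAt (fun s => YY n φ (v s)) E' t ∧
      E' ≤ -YY (n + 1) φ (v t) + 10 * M * NT n ρ (v t) + 4 * QQ n φ (v t) := by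
  have hv := hD.cv ht
  have hstep : ∀ p : Fin 3 × Fin 3, ∃ E' : ℝ,
      HasDerivAt (fun s => ∫ x, SS n (Om p.1 p.2 (v s)) x * φ x ^ 2) E' t ∧
      E' ≤ -(∫ x, SS (n + 1) (Om p.1 p.2 (v t)) x * φ x ^ 2)
        + 10 * (∫ x, SS n (Om p.1 p.2 (v t)) x * SS 1 φ x)
        + 4 * ∑ m, ∫ x, SS n (gg (v t) p.1 p.2 m) x * φ x ^ 2 := by
    intro p
    apply enN n (js_om hD.sv p.1 p.2) hφ.sm (fun m => gg_sm hv p.1 p.2 m) (by linarith)
      (tIoo ht) _ hφ.out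
    intro x hx
    rw [gg_div hv, hD.eq t ht x (ball_subset_ball hρ hx) p.1 p.2]
    ring
  choose E' hE1 hE2 using hstep
  refine ⟨∑ p, E' p, ?_, ?_⟩
  · have := HasDerivAt.fun_sum (u := Finset.univ) fun p _ => hE1 p
    exact this
  · have h1 : ∑ p, E' p ≤ ∑ p : Fin 3 × Fin 3, (-(∫ x, SS (n + 1) (Om p.1 p.2 (v t)) x * φ x ^ 2)
        + 10 * (∫ x, SS n (Om p.1 p.2 (v t)) x * SS 1 φ x)
        + 4 * ∑ m, ∫ x, SS n (gg (v t) p.1 p.2 m) x * φ x ^ 2) :=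
      Finset.sum_le_sum fun p _ => hE2 p
    refine h1.trans ?_
    rw [Finset.sum_add_distrib, Finset.sum_add_distrib, Finset.sum_neg_distrib,
      ← Finset.mul_sum, ← Finset.mul_sum]
    have h2 : ∑ p : Fin 3 × Fin 3, ∫ x, SS n (Om p.1 p.2 (v t)) x * SS 1 φ x
        ≤ M * NT n ρ (v t) := by
      unfold NT
      rw [Finset.mul_sum]
      exact Finset.sum_le_sum fun p _ => cut1_le_N n hφ (om_sm hv p.1 p.2)
    unfold YY QQ
    linarith

lemma sh {f : ℝ → ℝ} {s t β : ℝ} (h : s ≤ t) :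
    ∫ τ in Ioo s t, f (τ + β) = ∫ τ in (s + β)..(t + β), f τ := by
  rw [← integral_Ioc_eq_integral_Ioo, ← intervalIntegral.integral_of_le h,
    intervalIntegral.integral_comp_add_right]

lemma bd_of {f : ℝ → ℝ} (hf : ContinuousOn f (Ioo (-1) 0)) {β : ℝ} (hβ : β ∈ Ioo (-1 / 128 : ℝ) 0) :
    ∃ M, ∀ t ∈ Ioo (-3 / 64 : ℝ) 0, f (t + β) ≤ M := by
  have hc : IsCompact (Icc (-3 / 64 + β) β) := isCompact_Icc
  have hs : Icc (-3 / 64 + β) β ⊆ Ioo (-1 : ℝ) 0 := fun x hx =>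
    ⟨by linarith [hx.1, hβ.1], by linarith [hx.2, hβ.2]⟩
  obtain ⟨M, hM⟩ := hc.bddAbove_image (hf.mono hs)
  refine ⟨M, fun t ht => hM ⟨t + β, ⟨by linarith [ht.1], by linarith [ht.2]⟩, rfl⟩⟩

end

theorem t_ead : S_EAD := by
  intro K hK
  obtain ⟨B, hB, HB⟩ := lev K hK 9 (1 / 8) (-7 / 128) (by norm_num) (by norm_num)
    (by norm_num) (by norm_num)
  obtain ⟨B', hB', HB'⟩ := lev K hK 4 (3 / 16) (-7 / 128) (by norm_num) (by norm_num)
    (by norm_num) (by norm_num)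
  obtain ⟨C1, hC1, HC1⟩ := Pool.Agent.TH305.DR.Wb K 1 (ρ' := 1 / 8) (ρ := 3 / 16) (by norm_num)
    (by norm_num) (by norm_num)
  obtain ⟨C2, hC2, HC2⟩ := pointN (ρ' := 1 / 8) (ρ := 3 / 16) (by norm_num) (by norm_num)
    (by norm_num)
  refine ⟨B + C1 * (1 + B') + C2 * (4 * B'), by positivity, fun v W G hD β hβ => ?_⟩
  obtain ⟨hS, -⟩ := HB v W G hD
  obtain ⟨hS', -⟩ := HB' v W G hD
  have p1 : 0 ≤ C1 * (1 + B') := by positivity
  have p2 : 0 ≤ C2 * (4 * B') := by positivity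
  have hT : ∀ t ∈ Ioo (-3 / 64 : ℝ) 0, t + β ∈ Ioo (-7 / 128 : ℝ) 0 := fun t ht =>
    ⟨by linarith [ht.1, hβ.1], by linarith [ht.2, hβ.2]⟩
  have hT' : ∀ t ∈ Ioo (-3 / 64 : ℝ) 0, t + β ∈ Ioo (-1 / 16 : ℝ) 0 := fun t ht =>
    ⟨by linarith [ht.1, hβ.1], by linarith [ht.2, hβ.2]⟩
  have hT1 : ∀ t ∈ Ioo (-3 / 64 : ℝ) 0, t + β ∈ Ioo (-1 : ℝ) 0 := fun t ht =>
    ⟨by linarith [ht.1, hβ.1], by linarith [ht.2, hβ.2]⟩
  have hco : ∀ {f : ℝ → ℝ}, ContinuousOn f (Ioo (-1) 0) →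
      ContinuousOn (fun s => f (s + β)) (Ioo (-3 / 64) 0) := fun {f} hf =>
    hf.comp (continuous_id.add continuous_const).continuousOn hT1
  have hvj : ∀ i, ContDiffOn ℝ ∞ (fun z : ℝ × V => v z.1 z.2 i) (Ioo (-1 : ℝ) 0 ×ˢ univ) :=
    fun i => hD.sv i
  have cYY : ∀ (n : ℕ) {ρ ρ1 M : ℝ} {φ : V → ℝ}, Cut ρ ρ1 M φ →
      ContinuousOn (fun t => YY n φ (v t)) (Ioo (-1) 0) := fun n _ _ _ _ hφ =>
    ct_YY0 isOpen_Ioo hvj n hφ
  have cQQ : ∀ (n : ℕ) {ρ ρ1 M : ℝ} {φ : V → ℝ}, Cut ρ ρ1 M φ →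
      ContinuousOn (fun t => QQ n φ (v t)) (Ioo (-1) 0) := fun n _ _ _ _ hφ =>
    ct_QQ isOpen_Ioo hvj n hφ
  refine
    { openH := isOpen_Ioo
      subH := subset_rfl
      fullH := by simp
      sd := ?_
      cN := fun n ρ => hco (ct_NT n ρ hD.sv)
      cY := fun n ρ ρ1 M φ hφ => hco (cYY n hφ)
      cQ := fun n ρ ρ1 M φ hφ => hco (cQQ n hφ)
      Gc := hco hD.Gc
      GM := bd_of hD.Gc hβ
      Gi := ?_
      bd := fun n => bd_of (ct_NT n (1 / 8) hD.sv) hβ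
      b1 := ?_
      b2 := ?_
      b3 := ?_
      en := ?_ }
  · intro t ht
    have h := hT' t ht
    exact
      { cv := fun i => hD.cv h i
        cW := fun i => hD.cW h i
        lapv := fun x hx i => hD.lapv _ h x hx i
        lapH := fun x hx i => hD.lapH _ h x hx i
        bW := fun x hx i => hD.bW _ h x hx i
        bH := fun x hx i => hD.bH _ h x hx i
        Gn := hD.Gn _ (tIoo h) }
  · rw [sh (f := G) (by norm_num : (-3 / 64 : ℝ) ≤ 0)]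
    have hb : β ∈ Ioo (-1 / 16 : ℝ) 0 := ⟨by linarith [hβ.1], hβ.2⟩
    have h2 := hD.Gi β hb
    have a1 : (-3 / 64 + β : ℝ) ∈ Ioo (-1 : ℝ) 0 := ⟨by linarith [hβ.1], by linarith [hβ.2]⟩
    have a2 : (-1 / 16 : ℝ) ∈ Ioo (-1 : ℝ) 0 := ⟨by norm_num, by norm_num⟩
    have h3 : ∫ t in (-1 / 16 : ℝ)..β, G t
        = (∫ t in (-1 / 16 : ℝ)..(-3 / 64 + β), G t) + ∫ t in (-3 / 64 + β)..β, G t :=
      (intervalIntegral.integral_add_adjacent_intervals (ii_of hD.Gc a2 a1)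
        (ii_of hD.Gc a1 (tIoo hb))).symm
    have h4 : 0 ≤ ∫ t in (-1 / 16 : ℝ)..(-3 / 64 + β), G t := by
      apply intervalIntegral.integral_nonneg (by linarith [hβ.1])
      intro t ht
      exact hD.Gn t ⟨by linarith [ht.1], by linarith [ht.2, hβ.2]⟩
    rw [zero_add]
    linarith
  · intro n hn t ht
    have := hS n (by omega) _ (hT t ht)
    linarith
  · intro t ht
    have h1 := HC1 v W G hD _ (hT' t ht)
    have h2 : ∑ i ∈ Finset.range 1, NT i (3 / 16) (v (t + β)) ≤ B' := by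
      rw [Finset.sum_range_one]
      exact hS' 0 (by norm_num) _ (hT t ht)
    have h3 : C1 * (1 + ∑ i ∈ Finset.range 1, NT i (3 / 16) (v (t + β))) ≤ C1 * (1 + B') :=
      mul_le_mul_of_nonneg_left (by linarith) hC1.le
    linarith
  · intro t ht x hx
    have hv := hD.cv (hT' t ht)
    have h1 : ST 0 (v (t + β)) x ≤ C2 * (NT 0 (3 / 16) (v (t + β)) + NT 1 (3 / 16) (v (t + β))
        + NT 2 (3 / 16) (v (t + β)) + NT 3 (3 / 16) (v (t + β))) := by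
      have h2 : ST 0 (v (t + β)) x ≤ ∑ p : Fin 3 × Fin 3, C2 * (N 0 (3 / 16) (Om p.1 p.2 (v (t + β)))
          + N (0 + 1) (3 / 16) (Om p.1 p.2 (v (t + β)))
          + N (0 + 2) (3 / 16) (Om p.1 p.2 (v (t + β)))
          + N (0 + 3) (3 / 16) (Om p.1 p.2 (v (t + β)))) :=
        Finset.sum_le_sum fun p _ => HC2 0 _ (om_sm hv p.1 p.2) x hx
      refine h2.trans (le_of_eq ?_)
      rw [← Finset.mul_sum, Finset.sum_add_distrib, Finset.sum_add_distrib, Finset.sum_add_distrib]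
      rfl
    have a0 := hS' 0 (by omega) _ (hT t ht)
    have a1 := hS' 1 (by omega) _ (hT t ht)
    have a2 := hS' 2 (by omega) _ (hT t ht)
    have a3 := hS' 3 (by omega) _ (hT t ht)
    have h3 := mul_le_mul_of_nonneg_left (add_le_add (add_le_add (add_le_add a0 a1) a2) a3) hC2.le
    linarith
  · intro n ρ ρ1 ρ2 M φ h0 h01 h12 h2 hM hφ s hs t ht hst
    have c1 := cYY n hφ
    have c2 := cYY (n + 1) hφ
    have c3 := cQQ n hφ
    have c4 := ct_NT n ρ2 hD.sv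
    have hs1 := hT1 s hs
    have ht1 := hT1 t ht
    obtain ⟨R, hR⟩ : ∃ R : ℝ → ℝ, R = fun τ => (10 * M * NT n ρ2 (v τ) + 4 * QQ n φ (v τ))
      - YY (n + 1) φ (v τ) := ⟨_, rfl⟩
    have cR0 : ContinuousOn (fun τ => 10 * M * NT n ρ2 (v τ) + 4 * QQ n φ (v τ)) (Ioo (-1) 0) :=
      (continuousOn_const.mul c4).add (continuousOn_const.mul c3)
    have cR : ContinuousOn R (Ioo (-1) 0) := by
      rw [hR]
      exact cR0.sub c2
    have hd : ∀ τ ∈ Ioo (s + β) 0, ∃ E' : ℝ, HasDerivAt (fun s => YY n φ (v s)) E' τ ∧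
        E' ≤ R τ := by
      intro τ hτ
      have hτ' : τ ∈ Ioo (-1 / 16 : ℝ) 0 := ⟨(hT' s hs).1.trans hτ.1, hτ.2⟩
      obtain ⟨E', e1, e2⟩ := en_X n hφ (by linarith) hD hτ'
      refine ⟨E', e1, e2.trans ?_⟩
      have g1 := NT_mono n h12.le (hD.cv hτ')
      have g2 := mul_le_mul_of_nonneg_left g1 (by positivity : 0 ≤ 10 * M)
      rw [hR]
      show -YY (n + 1) φ (v τ) + 10 * M * NT n ρ1 (v τ) + 4 * QQ n φ (v τ)
        ≤ (10 * M * NT n ρ2 (v τ) + 4 * QQ n φ (v τ)) - YY (n + 1) φ (v τ)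
      linarith
    have hd' : ∀ τ : ℝ, ∃ E' : ℝ, τ ∈ Ioo (s + β) 0 →
        (HasDerivAt (fun s => YY n φ (v s)) E' τ ∧ E' ≤ R τ) := by
      intro τ
      by_cases hτ : τ ∈ Ioo (s + β) 0
      · obtain ⟨E', h⟩ := hd τ hτ
        exact ⟨E', fun _ => h⟩
      · exact ⟨0, fun h => absurd h hτ⟩
    choose E' hE' using hd'
    have key := antit (F := fun τ => YY n φ (v τ) - ∫ σ in (s + β)..τ, R σ)
      (F' := fun τ => E' τ - R τ) (a := s + β) (t := t + β) hs1 ht1.2 (by linarith)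
      (c1.sub (fun τ hτ => (prim cR hs1 hτ).continuousAt.continuousWithinAt))
      (fun τ hτ => (hE' τ hτ).1.sub (prim cR hs1 ⟨hs1.1.trans hτ.1, hτ.2⟩))
      (fun τ hτ => by
        have := (hE' τ hτ).2
        show E' τ - R τ ≤ 0
        linarith)
    simp only [intervalIntegral.integral_same, sub_zero] at key
    rw [hR, intervalIntegral.integral_sub (ii_of cR0 hs1 ht1) (ii_of c2 hs1 ht1)] at key
    have e1 := sh (f := fun τ => YY (n + 1) φ (v τ)) (β := β) hst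
    have e2 := sh (f := fun τ => 10 * M * NT n ρ2 (v τ) + 4 * QQ n φ (v τ)) (β := β) hst
    show YY n φ (v (t + β)) + ∫ τ in Ioo s t, YY (n + 1) φ (v (τ + β)) ≤ YY n φ (v (s + β))
        + ∫ τ in Ioo s t, (10 * M * NT n ρ2 (v (τ + β)) + 4 * QQ n φ (v (τ + β)))
    rw [e1, e2]
    linarith

end Pool.Agent.Y455.AN
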