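import Pool.Agent.Y455.AN.Ct
import Pool.Agent.Y7.WLev

/-!
Weak local data are energy data (helper455; after `Y7.WEnm` and `Y7.WInt2`).
-/

set_option autoImplicit false
set_option linter.unusedVariables false

open MeasureTheory Set Metric Filter Topology
open scoped ContDiff ENNReal

namespace Pool.Agent.Y455.AN

open H459R3.NS W221.NS Pool.Agent.TH305.DR Pool.Agent.Y7.WD Pool.Agent.Y7.AN
open Pool.Agent.W583.MD (sm_pd cs_pd pd_mul' Z Z.add Z.sub Z.smul Z.sum int_cs Z_pd hcs)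
open Pool.Agent.W639.MH (int_ball)
open Pool.Agent.W22.ME.TD (pd_comm lap_smooth)

section
variable {K M : ℝ} {H : Set ℝ} {v W : ℝ → V → V} {G k : ℝ → ℝ}

/-- The energy inequality for the derivatives of the mollified vorticity with the exact
nonlinear term. -/
lemma enmX (n : ℕ) {ρ ρ1 ρ1' ρ1a ρ2 M1 M2 L1 L2 ε : ℝ} {φ φ1 κ : V → ℝ} (hφ : Cut ρ ρ1 M1 φ)
    (hφ1 : Cut ρ1' ρ1a M2 φ1) (hM1 : 0 ≤ M1) (hL1 : 0 ≤ L1)
    (hlip1 : ∀ x y, |φ x ^ 2 - φ y ^ 2| ≤ L1 * ‖x - y‖) (hL2 : 0 ≤ L2)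
    (hlip2 : ∀ x y, |φ1 x ^ 2 - φ1 y ^ 2| ≤ L2 * ‖x - y‖) (hε : 0 < ε) (hε1 : ε ≤ 1)
    (h1 : ρ1 + ε ≤ ρ1') (h2 : ρ1a + ε ≤ ρ2) (h3 : ρ2 ≤ 1 / 4) (h4 : ρ1 ≤ 1 / 4)
    (h5 : ρ1a ≤ ρ2) (hκ : Ker ε κ) (hD : WK K M H v W G k) {t : ℝ} (ht : t ∈ H) :
    ∃ E' : ℝ, HasDerivAt (fun s => Ye κ n φ (v s)) E' t ∧
      E' ≤ -Ye κ (n + 1) φ (v t) + 10 * M1 * ((1 + L2 * ε) * NT n ρ2 (v t))
        + 4 * (QQ n φ (v t) + L1 * ε * QQ n φ1 (v t)) := by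
  have hv := fun i => hD.cv ht i
  have hom : ∀ p : Fin 3 × Fin 3, ContDiff ℝ ∞ (Om p.1 p.2 (v t)) := fun p => om_sm hv p.1 p.2
  have hj := fun p : Fin 3 × Fin 3 => om_joint hD.openH hD.smv p.1 p.2
  have hg := fun (p : Fin 3 × Fin 3) m => gg_sm hv p.1 p.2 m
  have hstep : ∀ p : Fin 3 × Fin 3, ∃ E' : ℝ,
      HasDerivAt (fun s => ∫ x, SS n (Pool.Agent.Y7.WD.cv κ (Om p.1 p.2 (v s))) x * φ x ^ 2) E' t ∧
      E' ≤ -(∫ x, SS (n + 1) (Pool.Agent.Y7.WD.cv κ (Om p.1 p.2 (v t))) x * φ x ^ 2)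
        + 10 * (∫ x, SS n (Pool.Agent.Y7.WD.cv κ (Om p.1 p.2 (v t))) x * SS 1 φ x)
        + 4 * ∑ m, ∫ x, SS n (Pool.Agent.Y7.WD.cv κ (gg (v t) p.1 p.2 m)) x * φ x ^ 2 := by
    intro p
    refine en_H (w := fun s => Pool.Agent.Y7.WD.cv κ (Om p.1 p.2 (v s)))
      (g := fun m => Pool.Agent.Y7.WD.cv κ (gg (v t) p.1 p.2 m)) n hD.openH hD.subH
      (cv_joint (f := fun s => Om p.1 p.2 (v s)) hD.openH hκ.toKn (hj p)) hφ.sm
      (fun m => cv_smooth hκ.toKn (hg p m).continuous) (ρ := ρ1) (by linarith) ht ?_ hφ.out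
    intro x hx
    rw [(cv_dt (f := fun s => Om p.1 p.2 (v s)) hD.openH hκ.toKn (hj p) ht x).deriv,
      cv_lap hκ.toKn (hom p)]
    have e1 : (fun y => deriv (fun s => Om p.1 p.2 (v s) y) t)
        = fun y => lap (Om p.1 p.2 (v t)) y + ∑ m, pd m (gg (v t) p.1 p.2 m) y := by
      funext y
      rw [gg_div hv, hD.eq t ht y p.1 p.2]
      ring
    rw [e1, cv_add hκ.toKn (lap_smooth (hom p)).continuous
      (continuous_finsetSum _ fun m _ => (sm_pd (hg p m) m).continuous),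
      cv_sum3 hκ.toKn (fun m => (sm_pd (hg p m) m).continuous)]
    congr 1
    refine Finset.sum_congr rfl fun m _ => ?_
    rw [cv_pd' hκ.toKn (hg p m)]
  choose E' hE1 hE2 using hstep
  refine ⟨∑ p, E' p, ?_, ?_⟩
  · have := HasDerivAt.fun_sum (u := Finset.univ) fun p _ => hE1 p
    exact this
  · have g0 : ∑ p, E' p ≤ ∑ p : Fin 3 × Fin 3,
        (-(∫ x, SS (n + 1) (Pool.Agent.Y7.WD.cv κ (Om p.1 p.2 (v t))) x * φ x ^ 2)
        + 10 * (∫ x, SS n (Pool.Agent.Y7.WD.cv κ (Om p.1 p.2 (v t))) x * SS 1 φ x)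
        + 4 * ∑ m, ∫ x, SS n (Pool.Agent.Y7.WD.cv κ (gg (v t) p.1 p.2 m)) x * φ x ^ 2) :=
      Finset.sum_le_sum fun p _ => hE2 p
    refine g0.trans ?_
    rw [Finset.sum_add_distrib, Finset.sum_add_distrib, Finset.sum_neg_distrib,
      ← Finset.mul_sum, ← Finset.mul_sum]
    have hρ1 : ρ1 ≤ ρ1' := by linarith
    -- the second term
    have g2 : ∑ p : Fin 3 × Fin 3, ∫ x, SS n (Pool.Agent.Y7.WD.cv κ (Om p.1 p.2 (v t))) x * SS 1 φ x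
        ≤ M1 * ((1 + L2 * ε) * NT n ρ2 (v t)) := by
      unfold NT
      rw [Finset.mul_sum, Finset.mul_sum]
      refine Finset.sum_le_sum fun p _ => ?_
      have a0 := cv_smooth hκ.toKn (hom p).continuous
      have a1 : ∫ x, SS n (Pool.Agent.Y7.WD.cv κ (Om p.1 p.2 (v t))) x * SS 1 φ x
          ≤ M1 * ∫ x, SS n (Pool.Agent.Y7.WD.cv κ (Om p.1 p.2 (v t))) x * φ1 x ^ 2 := by
        rw [← integral_const_mul]
        refine integral_mono (int_ss1 n a0 hφ.sm hφ.cs)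
          ((int_ss n a0 hφ1.sm hφ1.cs).const_mul M1) fun x => ?_
        show SS n (Pool.Agent.Y7.WD.cv κ (Om p.1 p.2 (v t))) x * SS 1 φ x
          ≤ M1 * (SS n (Pool.Agent.Y7.WD.cv κ (Om p.1 p.2 (v t))) x * φ1 x ^ 2)
        have b0 := SS_nonneg n (Pool.Agent.Y7.WD.cv κ (Om p.1 p.2 (v t))) x
        by_cases hx : x ∈ ball (0 : V) ρ1
        · have b1 := hφ.grad x
          rw [hφ1.one x (ball_subset_ball hρ1 hx)]
          nlinarith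
        · rw [hφ.gout x hx]
          have : 0 ≤ SS n (Pool.Agent.Y7.WD.cv κ (Om p.1 p.2 (v t))) x * φ1 x ^ 2 :=
            mul_nonneg b0 (sq_nonneg _)
          rw [mul_zero]
          exact mul_nonneg hM1 this
      have a2 := mol_wt hφ1 hL2 hlip2 hκ hε n (hom p)
      have a3 : ∫ x, SS n (Om p.1 p.2 (v t)) x * φ1 x ^ 2 ≤ N n ρ2 (Om p.1 p.2 (v t)) :=
        (cut_le_N n hφ1 (hom p)).trans (N_mono n h5 (hom p))
      have a4 : N n (ρ1a + ε) (Om p.1 p.2 (v t)) ≤ N n ρ2 (Om p.1 p.2 (v t)) :=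
        N_mono n h2 (hom p)
      have a5 : L2 * ε * N n (ρ1a + ε) (Om p.1 p.2 (v t)) ≤ L2 * ε * N n ρ2 (Om p.1 p.2 (v t)) :=
        mul_le_mul_of_nonneg_left a4 (mul_nonneg hL2 hε.le)
      refine a1.trans (mul_le_mul_of_nonneg_left ?_ hM1)
      linarith
    -- the third term
    have g3 : ∑ p : Fin 3 × Fin 3, ∑ m, ∫ x, SS n (Pool.Agent.Y7.WD.cv κ (gg (v t) p.1 p.2 m)) x * φ x ^ 2
        ≤ QQ n φ (v t) + L1 * ε * QQ n φ1 (v t) := by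
      have a1 : ∀ (p : Fin 3 × Fin 3) m,
          ∫ x, SS n (Pool.Agent.Y7.WD.cv κ (gg (v t) p.1 p.2 m)) x * φ x ^ 2
          ≤ (∫ x, SS n (gg (v t) p.1 p.2 m) x * φ x ^ 2)
            + L1 * ε * ∫ x, SS n (gg (v t) p.1 p.2 m) x * φ1 x ^ 2 := by
        intro p m
        have b1 := mol_wt hφ hL1 hlip1 hκ hε n (hg p m)
        have b2 : N n (ρ1 + ε) (gg (v t) p.1 p.2 m)
            ≤ ∫ x, SS n (gg (v t) p.1 p.2 m) x * φ1 x ^ 2 :=
          (N_mono n h1 (hg p m)).trans (N_le_cut n hφ1 (hg p m))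
        have b3 := mul_le_mul_of_nonneg_left b2 (mul_nonneg hL1 hε.le)
        linarith
      unfold QQ
      rw [Finset.mul_sum, ← Finset.sum_add_distrib]
      refine Finset.sum_le_sum fun p _ => ?_
      rw [Finset.mul_sum, ← Finset.sum_add_distrib]
      exact Finset.sum_le_sum fun m _ => a1 p m
    have e7 : ∑ p : Fin 3 × Fin 3, ∫ x, SS (n + 1) (Pool.Agent.Y7.WD.cv κ (Om p.1 p.2 (v t))) x * φ x ^ 2
        = Ye κ (n + 1) φ (v t) := rfl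
    rw [e7]
    linarith [g2, g3]

end

/-- The energy inequality over a time interval with the exact nonlinear term. -/
lemma enIX (K : ℝ) (hK : 0 ≤ K) (n : ℕ) {ρ ρ1 ρ2 M1 : ℝ} {φ : V → ℝ} (h0 : 0 < ρ)
    (h1 : ρ < ρ1) (h2 : ρ1 < ρ2) (h3 : ρ2 ≤ 1 / 8) (hM1 : 0 ≤ M1) (hφ : Cut ρ ρ1 M1 φ)
    (M : ℝ) (H : Set ℝ) (v W : ℝ → V → V) (G k : ℝ → ℝ) (hD : WK K M H v W G k)
    (s : ℝ) (hs : s ∈ H) (t : ℝ) (ht : t ∈ H) (hs16 : -3 / 64 < s) (hst : s ≤ t) :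
    YY n φ (v t) + ∫ τ in Ioo s t, YY (n + 1) φ (v τ) ≤ YY n φ (v s)
      + ∫ τ in Ioo s t, (10 * M1 * NT n ρ2 (v τ) + 4 * QQ n φ (v τ)) := by
  obtain ⟨B, hB, HB⟩ := wlev K hK (n + 1) (1 / 8) (-3 / 64) (by norm_num) (by norm_num)
    (by norm_num) (by norm_num)
  obtain ⟨hlow, -⟩ := HB M H v W G k hD
  obtain ⟨ρ1', hρ1'⟩ : ∃ x, x = ρ1 + (ρ2 - ρ1) / 4 := ⟨_, rfl⟩
  obtain ⟨ρ1a, hρ1a⟩ : ∃ x, x = ρ1 + (ρ2 - ρ1) / 2 := ⟨_, rfl⟩
  have r1 : ρ1 < ρ1' := by linarith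
  have r2 : ρ1' < ρ1a := by linarith
  have r3 : ρ1a < ρ2 := by linarith
  obtain ⟨M2, φ1, hM2, hφ1⟩ := exists_cut (by linarith : 0 < ρ1') r2
  obtain ⟨L1, hL1, hlip1⟩ := cut_lip hφ
  obtain ⟨L2, hL2, hlip2⟩ := cut_lip hφ1
  obtain ⟨C1, hC1, HC1⟩ := Pool.Agent.Y7.WD.prod_all K B hB n hφ (h0.trans h1) h2
    (by linarith : ρ2 ≤ 1 / 4)
  obtain ⟨C2, hC2, HC2⟩ := Pool.Agent.Y7.WD.prod_all K B hB n hφ1 (by linarith : 0 < ρ1a) r3
    (by linarith : ρ2 ≤ 1 / 4)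
  have hs1 := hD.subH hs
  have ht1 := hD.subH ht
  have hA : Ioo s t ⊆ Ioo (-1 : ℝ) 0 := fun τ hτ => ⟨hs1.1.trans hτ.1, hτ.2.trans ht1.2⟩
  have hM0 : 0 ≤ M := by
    have := (hD.sd s hs (by linarith)).Gn
    exact this.trans (hD.GM s hs)
  have hv := fun (τ : ℝ) (hτ : τ ∈ H) i => hD.cv hτ i
  have hGn : ∀ τ ∈ Ioo s t, τ ∈ H → 0 ≤ G τ := fun τ h1 h2 =>
    (hD.sd τ h2 (by linarith [h1.1])).Gn
  have hNT : ∀ τ ∈ Ioo s t, τ ∈ H → ∀ i ≤ n, NT i ρ2 (v τ) ≤ B := fun τ hτ hτH i hi =>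
    (NT_mono i h3 (hv τ hτH)).trans (hlow i (by omega) τ hτH (hs16.trans hτ.1))
  have hQb : ∀ {C : ℝ} {σ σ' M' : ℝ} {ψ : V → ℝ}, 0 ≤ C → Cut σ' σ M' ψ → σ ≤ ρ2 →
      (∀ (v W : V → V) (G : ℝ), SD K v W G → (∀ i < n, NT i ρ2 v ≤ B) →
        ∑ a ∈ Finset.range (n + 1), ∫ x, SV a v x * ST (n - a) v x * ψ x ^ 2
        ≤ C * (1 + G) * (∑ p : Fin 3 × Fin 3, ∫ x, SS n (Om p.1 p.2 v) x * ψ x ^ 2)
          + C * (1 + G + NT n ρ2 v)) →
      ∀ τ ∈ Ioo s t, τ ∈ H → |QQ n ψ (v τ)| ≤ 36 * 4 ^ (n + 1) *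
        (C * (1 + M) * B + C * (1 + M + B)) := by
    intro C σ σ' M' ψ hC hψ hσ hP τ hτ hτH
    rw [abs_of_nonneg (QQ_nonneg _ _ _)]
    have hsd := hD.sd τ hτH (by linarith [hτ.1])
    have a0 := hGn τ hτ hτH
    have a1 := hD.GM τ hτH
    have a2 := hNT τ hτ hτH n le_rfl
    have p1 : PP n ψ (v τ) ≤ C * (1 + G τ) * YY n ψ (v τ)
        + C * (1 + G τ + NT n ρ2 (v τ)) :=
      hP (v τ) (W τ) (G τ) hsd fun i hi => hNT τ hτ hτH i hi.le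
    have p3 := YY_le_NT n hψ hσ (hv τ hτH)
    have p4 := NT_nonneg n ρ2 (v τ)
    have p5 := YY_nonneg n ψ (v τ)
    have q1 : C * (1 + G τ) * YY n ψ (v τ) ≤ C * (1 + M) * B :=
      mul_le_mul (mul_le_mul_of_nonneg_left (by linarith) hC) (p3.trans a2) p5 (by positivity)
    have q2 : C * (1 + G τ + NT n ρ2 (v τ)) ≤ C * (1 + M + B) :=
      mul_le_mul_of_nonneg_left (by linarith) hC
    have q3 := gg_int n hψ (hv τ hτH)
    refine le_trans q3 ?_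
    apply mul_le_mul_of_nonneg_left _ (by positivity)
    linarith
  have cY := ct_YY n hφ hD
  have cY1 := ct_YY (n + 1) hφ hD
  have cN := ct_NT' n ρ2 hD
  have cQ := ct_QQ hD.openH hD.smv n hφ
  have cQ1 := ct_QQ hD.openH hD.smv n hφ1
  have iN : IntegrableOn (fun τ => NT n ρ2 (v τ)) (Ioo s t) :=
    int_le hD.openH hD.fullH hA measurableSet_Ioo cN
      (integrableOn_const (C := B) measure_Ioo_lt_top.ne) fun τ hτ hτH => by
        rw [abs_of_nonneg (NT_nonneg _ _ _)]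
        exact hNT τ hτ hτH n le_rfl
  have iQ : IntegrableOn (fun τ => QQ n φ (v τ)) (Ioo s t) :=
    int_le hD.openH hD.fullH hA measurableSet_Ioo cQ
      (integrableOn_const (C := 36 * 4 ^ (n + 1) *
        (C1 * (1 + M) * B + C1 * (1 + M + B))) measure_Ioo_lt_top.ne) (hQb hC1 hφ h2.le HC1)
  have iQ1 : IntegrableOn (fun τ => QQ n φ1 (v τ)) (Ioo s t) :=
    int_le hD.openH hD.fullH hA measurableSet_Ioo cQ1
      (integrableOn_const (C := 36 * 4 ^ (n + 1) *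
        (C2 * (1 + M) * B + C2 * (1 + M + B))) measure_Ioo_lt_top.ne) (hQb hC2 hφ1 r3.le HC2)
  -- the error
  obtain ⟨D, hDdef⟩ : ∃ D : ℝ → ℝ, D = fun τ => 10 * M1 * L2 * NT n ρ2 (v τ)
    + 4 * L1 * QQ n φ1 (v τ) := ⟨_, rfl⟩
  have iD : IntegrableOn D (Ioo s t) := by
    rw [hDdef]
    exact (iN.const_mul _).add (iQ1.const_mul _)
  obtain ⟨S, hS⟩ : ∃ S : ℝ → ℝ, S = fun τ => 10 * M1 * NT n ρ2 (v τ)
    + 4 * QQ n φ (v τ) := ⟨_, rfl⟩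
  have iS : IntegrableOn S (Ioo s t) := by
    rw [hS]
    exact (iN.const_mul _).add (iQ.const_mul _)
  -- the mollifiers
  obtain ⟨ε, κ, hε0, hεp, hεd, hε1, hκ⟩ := ex_eps (by linarith : 0 < (ρ2 - ρ1) / 4)
  have key : ∀ j, IntegrableOn (fun τ => Ye (κ j) (n + 1) φ (v τ)) (Ioo s t) ∧
      ∫ τ in Ioo s t, Ye (κ j) (n + 1) φ (v τ) ≤ Ye (κ j) n φ (v s) - Ye (κ j) n φ (v t)
        + (∫ τ in Ioo s t, S τ) + ε j * ∫ τ in Ioo s t, D τ := by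
    intro j
    obtain ⟨B1, hB1, hb1, hm1⟩ := Ye_mod n hφ (by linarith) (hε1 j) (hκ j).toKn hD
    obtain ⟨B2, hB2, hb2, hm2⟩ := Ye_mod (n + 1) hφ (by linarith) (hε1 j) (hκ j).toKn hD
    have iZ : IntegrableOn (fun τ => Ye (κ j) (n + 1) φ (v τ)) (Ioo s t) :=
      int_le hD.openH hD.fullH hA measurableSet_Ioo (ct_Ye (n + 1) hφ (hκ j).toKn hD)
        (integrableOn_const (C := B2) measure_Ioo_lt_top.ne) fun τ _ hτH => hb2 τ hτH
    refine ⟨iZ, ?_⟩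
    obtain ⟨f1, f2⟩ := md_ftc hD.openH hD.subH hD.fullH hD.kint hD.knn hB1 hm1 hs ht hst
    have hle : ∫ τ in Ioo s t, deriv (fun s => Ye (κ j) n φ (v s)) τ
        ≤ ∫ τ in Ioo s t, (-Ye (κ j) (n + 1) φ (v τ) + S τ + ε j * D τ) := by
      refine int_mono hD.fullH hA measurableSet_Ioo f1 ((iZ.neg.add iS).add (iD.const_mul _))
        fun τ hτ hτH => ?_
      obtain ⟨E', e1, e2⟩ := enmX n hφ hφ1 hM1 hL1 hlip1 hL2 hlip2 (hεp j) (hε1 j)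
        (by linarith [hεd j]) (by linarith [hεd j]) (by linarith) (by linarith) r3.le (hκ j) hD hτH
      rw [e1.deriv]
      refine e2.trans (le_of_eq ?_)
      rw [hS, hDdef]
      show -Ye (κ j) (n + 1) φ (v τ) + 10 * M1 * ((1 + L2 * ε j) * NT n ρ2 (v τ))
        + 4 * (QQ n φ (v τ) + L1 * ε j * QQ n φ1 (v τ))
        = -Ye (κ j) (n + 1) φ (v τ) + (10 * M1 * NT n ρ2 (v τ) + 4 * QQ n φ (v τ))
          + ε j * (10 * M1 * L2 * NT n ρ2 (v τ) + 4 * L1 * QQ n φ1 (v τ))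
      ring
    have iZn : IntegrableOn (fun τ => -Ye (κ j) (n + 1) φ (v τ)) (Ioo s t) := iZ.neg
    have i12 : IntegrableOn (fun τ => -Ye (κ j) (n + 1) φ (v τ) + S τ) (Ioo s t) := iZn.add iS
    have i3 : IntegrableOn (fun τ => ε j * D τ) (Ioo s t) := iD.const_mul _
    rw [← f2, integral_add i12 i3, integral_add iZn iS, integral_neg, integral_const_mul] at hle
    linarith
  have hlimc : Tendsto (fun j => Ye (κ j) n φ (v s) - Ye (κ j) n φ (v t)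
      + (∫ τ in Ioo s t, S τ) + ε j * ∫ τ in Ioo s t, D τ) atTop
      (𝓝 (YY n φ (v s) - YY n φ (v t) + (∫ τ in Ioo s t, S τ)
        + 0 * ∫ τ in Ioo s t, D τ)) :=
    (((Ye_lim hε0 hε1 hκ n hφ (hv s hs)).sub (Ye_lim hε0 hε1 hκ n hφ (hv t ht))).add
      tendsto_const_nhds).add (hε0.mul_const _)
  obtain ⟨g1, g2⟩ := fatou (A := Ioo s t) (z := fun τ => YY (n + 1) φ (v τ))
    (Z := fun j τ => Ye (κ j) (n + 1) φ (v τ)) (fun j => (key j).1)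
    (fun j => Eventually.of_forall fun τ => Ye_nonneg _ _ _ _)
    (Eventually.of_forall fun τ => YY_nonneg _ _ _)
    (aesm hD.openH hD.fullH hA cY1)
    (by
      filter_upwards [ae_mem hD.fullH hA measurableSet_Ioo] with τ hτ
      exact Ye_lim hε0 hε1 hκ (n + 1) hφ (hv τ hτ.2))
    (fun j => (key j).2) hlimc
  rw [hS] at g2
  linarith

theorem t_eaw : S_EAW := by
  intro K hK
  obtain ⟨B, hB, HB⟩ := wlev K hK 9 (1 / 8) (-3 / 64) (by norm_num) (by norm_num)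
    (by norm_num) (by norm_num)
  obtain ⟨B', hB', HB'⟩ := wlev K hK 4 (3 / 16) (-3 / 64) (by norm_num) (by norm_num)
    (by norm_num) (by norm_num)
  obtain ⟨C1, hC1, HC1⟩ := Pool.Agent.Y7.WD.Wb K 1 (ρ' := 1 / 8) (ρ := 3 / 16) (by norm_num)
    (by norm_num) (by norm_num)
  obtain ⟨C2, hC2, HC2⟩ := pointN (ρ' := 1 / 8) (ρ := 3 / 16) (by norm_num) (by norm_num)
    (by norm_num)
  refine ⟨B + C1 * (1 + B') + C2 * (4 * B'), by positivity, fun M H v W G k hD => ?_⟩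
  obtain ⟨hS, -⟩ := HB M H v W G k hD
  obtain ⟨hS', -⟩ := HB' M H v W G k hD
  have p1 : 0 ≤ C1 * (1 + B') := by positivity
  have p2 : 0 ≤ C2 * (4 * B') := by positivity
  have hsub : H ∩ Ioo (-3 / 64) 0 ⊆ H := inter_subset_left
  refine
    { openH := hD.openH.inter isOpen_Ioo
      subH := inter_subset_right
      fullH := ?_
      sd := fun t ht => hD.sd t ht.1 (by linarith [ht.2.1])
      cN := fun n ρ => (ct_NT' n ρ hD).mono hsub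
      cY := fun n ρ ρ1 M φ hφ => (ct_YY n hφ hD).mono hsub
      cQ := fun n ρ ρ1 M φ hφ => (ct_QQ hD.openH hD.smv n hφ).mono hsub
      Gc := hD.Gc.mono hsub
      GM := ⟨M, fun t ht => hD.GM t ht.1⟩
      Gi := (hD.iG (by norm_num) (by norm_num)).2.2
      bd := ?_
      b1 := ?_
      b2 := ?_
      b3 := ?_
      en := ?_ }
  · refine measure_mono_null ?_ hD.fullH
    intro x hx
    refine ⟨⟨by linarith [hx.1.1], hx.1.2⟩, fun h => hx.2 ⟨h, hx.1⟩⟩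
  · intro n
    obtain ⟨C, hC, HC⟩ := wlev K hK (n + 1) (1 / 8) (-3 / 64) (by norm_num) (by norm_num)
      (by norm_num) (by norm_num)
    exact ⟨C, fun t ht => (HC M H v W G k hD).1 n (Nat.lt_succ_self n) t ht.1 ht.2.1⟩
  · intro n hn t ht
    have := hS n (by omega) t ht.1 ht.2.1
    linarith
  · intro t ht
    have h1 := HC1 _ _ _ (hD.sd t ht.1 (by linarith [ht.2.1]))
    have h2 : ∑ i ∈ Finset.range 1, NT i (3 / 16) (v t) ≤ B' := by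
      rw [Finset.sum_range_one]
      exact hS' 0 (by norm_num) t ht.1 ht.2.1
    have h3 : C1 * (1 + ∑ i ∈ Finset.range 1, NT i (3 / 16) (v t)) ≤ C1 * (1 + B') :=
      mul_le_mul_of_nonneg_left (by linarith) hC1.le
    linarith
  · intro t ht x hx
    have hv := fun i => hD.cv ht.1 i
    have h1 : ST 0 (v t) x ≤ C2 * (NT 0 (3 / 16) (v t) + NT 1 (3 / 16) (v t)
        + NT 2 (3 / 16) (v t) + NT 3 (3 / 16) (v t)) := by
      have h2 : ST 0 (v t) x ≤ ∑ p : Fin 3 × Fin 3, C2 * (N 0 (3 / 16) (Om p.1 p.2 (v t))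
          + N (0 + 1) (3 / 16) (Om p.1 p.2 (v t))
          + N (0 + 2) (3 / 16) (Om p.1 p.2 (v t))
          + N (0 + 3) (3 / 16) (Om p.1 p.2 (v t))) :=
        Finset.sum_le_sum fun p _ => HC2 0 _ (om_sm hv p.1 p.2) x hx
      refine h2.trans (le_of_eq ?_)
      rw [← Finset.mul_sum, Finset.sum_add_distrib, Finset.sum_add_distrib, Finset.sum_add_distrib]
      rfl
    have a0 := hS' 0 (by omega) t ht.1 ht.2.1
    have a1 := hS' 1 (by omega) t ht.1 ht.2.1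
    have a2 := hS' 2 (by omega) t ht.1 ht.2.1
    have a3 := hS' 3 (by omega) t ht.1 ht.2.1
    have h3 := mul_le_mul_of_nonneg_left (add_le_add (add_le_add (add_le_add a0 a1) a2) a3) hC2.le
    linarith
  · intro n ρ ρ1 ρ2 M' φ h0 h01 h12 h2 hM hφ s hs t ht hst
    exact enIX K hK n h0 h01 h12 h2 hM hφ M H v W G k hD s hs.1 t ht.1 hs.2.1 hst

end Pool.Agent.Y455.AN
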